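import Mathlib
import Pool.Agent.R932.ProdD
import Pool.Agent.R932.OP.SymA
import Pool.Agent.R932.OP.SymB
import Pool.Agent.R932.EV.All
import Pool.Agent.Y664.ZS.Opens

/-!
# The Tate conjecture for `X^4` at one prime and for `X^2` at `ℓ` implies it for all `X^k × Z` at `ℓ`

Let `k` be a field which is finitely generated over `ℚ` (for example a number field), `X` a smooth projective
variety over `k` and `V_ℓ`, for all prime numbers `ℓ`, a direct factor of the cohomology of `X` in an odd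
degree `a` which is cut out by correspondences (for example the cohomology in the middle degree, if `X` is a
complete intersection of odd dimension, or `H^1` of a curve), with the alternating form `J_ℓ` given by a
polarization. `Γ` is the Galois group of `k` (or the fundamental group of a model), `K` a number field and
`s : G_K → Γ` the homomorphism given by a closed point of the generic fibre of a model of `X` (if `k` is a
number field, then `K = k` and `s` is the identity). At the places `v ∉ S` of `K` the geometric Frobenius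
element has a characteristic polynomial `P_v` with rational coefficients and the multiplier `q_v`
(`= N(v)^a`), independent of `ℓ` (Deligne).

Suppose that for ONE prime number `ℓ₀ ≠ 2`
(T) the Tate classes in `V_{ℓ₀}^{⊗ 4}` (a part of the cohomology of `X^4`), over all finite extensions
of `k`, are combinations of the three products of two polarization classes;
(S) the representation on `V_{ℓ₀}^{⊗ 2}`, that is on `End(V_{ℓ₀})`, is semisimple;
(P) the image of `s(G_K)` in the `ℓ₀`-adic representation contains the image of an open subgroup of `Γ` (there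
are infinitely many such closed points, by Hilbert's irreducibility theorem: Serre, Terasoma); and
some place `v₀ ∉ S` prime to `ℓ₀` is not supersingular (for no `n > 0` all roots `x` of `P_{v₀}`
satisfy `x^{2n} = q^n`).

**Theorem.** (1) There is a set of prime numbers of natural density zero such that for all prime numbers
`ℓ` outside this set
(a) the image of `G_K` (and so of `Γ`) contains an open subgroup of the symplectic group of `V_ℓ`;
(b) for every variety `Z` over the algebraic closure of `k`, and every cohomology group `W` of `Z` with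
coefficients `ℚ_ℓ` and any Tate twist (or any representation `W` of an open subgroup of `Γ` on a
`ℚ_ℓ`-vector space: no continuity, semisimplicity or purity is needed) which is independent of `X` at one
Frobenius element (some root of `P_v` has no positive power in the group generated by the eigenvalues on
`W` and `q_v`), all Tate classes in `V_ℓ^{⊗ k} ⊗ W`, a part of the cohomology of `X^k × Z`, are sums of
products of polarization classes and Tate classes on `Z`, for every `k`.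
(2) For EVERY prime number `ℓ` (also `ℓ = 2`) such that `V_ℓ` is a semisimple representation and the Tate
classes in `End(V_ℓ)` (a part of the cohomology of `X × X`), over all finite extensions of `k`, are the
scalars, the image of `Γ` contains an open subgroup of the symplectic group of `V_ℓ`, and (b) holds.

So if the other cohomology of `X` is generated by algebraic classes (complete intersections of odd
dimension), the Tate conjecture for `X^4` in the form (T) together with (S) at one prime number `ℓ₀`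
implies the Tate conjecture for all the varieties `X^k × Z` at 100 percent of the prime numbers `ℓ`, if it
is true for `Z`; and for every prime number `ℓ` the Tate conjecture for `X × X` with semisimplicity
implies it for all `X^k × Z`. For `Z` a point one gets all powers of `X`. The hypotheses are satisfied if
the image of the Galois group at the one prime `ℓ₀` is open in the group of similitudes, and this can
be checked by a finite computation for a given `X` and `ℓ₀`.

Idea of the proof. (A) Larsen's alternative at `ℓ₀`, infinitesimally: the intersection `W` of the Lie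
algebra of the image with `sp(V)` is stable under conjugation, so by (S) there is an equivariant
projection of `End(V)` onto `W`; it is a Tate class in `V^{⊗ 4}`, by (T) a combination of the identity,
the adjoint and the trace, and so a scalar on `sp(V)`. Hence `W = 0` or `W = sp(V)`. If `W = 0` then an open
subgroup has an abelian image, which consists of scalars by (T), and all places are supersingular.
(B) From the open image at `ℓ₀` one finds (Chebotarev, p-adic approximation) places `v` with roots of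
`P_v` in special positions over `ℚ_{ℓ₀}`; this gives infinitely many primes with open image, and
then places `v` for which the Galois group of `P_v` is the full Weyl group of type `C` over any given
number field (local types at five of these primes). Chebotarev's theorem for `ℓ` shows that for 100
percent of the primes `P_v` is irreducible, respectively split, over `ℚ_ℓ` for such places `v`; the first
gives strong irreducibility and the second the root decomposition of the Lie algebra. (C) For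
every prime `ℓ` there is a place `v` prime to `ℓ` such that the quotients of the roots of `P_v` are as
different as possible. If `V_ℓ` is semisimple with scalar Tate classes, the tangent vectors generate the
algebra of all matrices (Clifford, Burnside), and the root decomposition over the algebraic closure of
`ℚ_ℓ` given by the Frobenius element shows that the Lie algebra contains `sp(V)`. (D) For `Z` one
uses a logarithm of the Frobenius element (`PowersTimesAnything`).

Part (B) uses the global argument of the starting files (project ZS of helper142, seven of its tasks were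
proved there); the other tasks were proved in this run by helper393 (permutation groups), helper757
(unramified extensions), helper810 (clusters of roots, full cycles), helper62 (other local types),
helper422 (elements of the symplectic Lie algebra), helper329 (generic split type), helper746
(unramified full cycle), helper252 (twists) and helper872 (descent for the root decomposition).
-/

set_option autoImplicit false

namespace Pool.Agent.Results.MP_938ce2_ag.FourthPowerAtOnePrime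

open Matrix Polynomial Filter Topology NumberField IsDedekindDomain

/-- the absolute Galois group of `K`, with its profinite (Krull) topology -/
abbrev AbsoluteGaloisGroup (K : Type) [Field K] : Type := Gal(AlgebraicClosure K/K)

/-- `σ` is an (arithmetic) Frobenius element at the prime `v` of the number field `K`: for some prime
`Q` of the algebraic closure above `v` it acts on the residue field as `x ↦ x ^ N(v)` -/
def IsFrobenius {K : Type} [Field K] [NumberField K] (v : HeightOneSpectrum (𝓞 K))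
    (σ : AbsoluteGaloisGroup K) : Prop :=
  ∃ Q : Ideal (𝓞 (AlgebraicClosure K)), Q.IsMaximal ∧
    Q.comap (algebraMap (𝓞 K) (𝓞 (AlgebraicClosure K))) = v.asIdeal ∧
    ∀ x : 𝓞 (AlgebraicClosure K), σ • x - x ^ Ideal.absNorm v.asIdeal ∈ Q

/-- `ρ` is a continuous representation of `Γ` on `ℚ_ℓ ^ N` by similitudes of the nondegenerate alternating
form with the matrix `J`; for all `v ∉ S` which are prime to `ℓ` the characteristic polynomial of (the image
under `s` of) the geometric Frobenius elements `σ⁻¹` (`σ` arithmetic) at `v` is `P v`, and their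
multiplier is `q v` -/
def IsSymplecticSystem {K : Type} [Field K] [NumberField K] {Γ : Type} [Group Γ]
    [TopologicalSpace Γ] (s : AbsoluteGaloisGroup K →* Γ) (N ℓ : ℕ) [Fact ℓ.Prime]
    (ρ : Γ →* Matrix (Fin N) (Fin N) ℚ_[ℓ]) (J : Matrix (Fin N) (Fin N) ℚ_[ℓ])
    (S : Set (HeightOneSpectrum (𝓞 K))) (P : HeightOneSpectrum (𝓞 K) → ℚ[X])
    (q : HeightOneSpectrum (𝓞 K) → ℚ) : Prop :=
  Continuous ρ ∧ Jᵀ = -J ∧ J.det ≠ 0 ∧
    (∀ γ, ∃ c : ℚ_[ℓ], (ρ γ)ᵀ * J * ρ γ = c • J) ∧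
    ∀ v ∉ S, (ℓ : 𝓞 K) ∉ v.asIdeal → ∀ σ : AbsoluteGaloisGroup K, IsFrobenius v σ →
      (ρ (s σ⁻¹)).charpoly = (P v).map (algebraMap ℚ ℚ_[ℓ]) ∧
        (ρ (s σ⁻¹))ᵀ * J * ρ (s σ⁻¹) = (q v : ℚ_[ℓ]) • J

/-- (T): every quadrilinear form on `ℚ_ℓ ^ N` which the elements `σ` of an open subgroup multiply by the
square of their multiplier (a Tate class in the fourth tensor power) is a linear combination of the
three products of two values of `J` -/
def TateClassesOnFourthPower {Γ : Type} [Group Γ] [TopologicalSpace Γ] {N : ℕ} (ℓ : ℕ)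
    [Fact ℓ.Prime] (ρ : Γ →* Matrix (Fin N) (Fin N) ℚ_[ℓ]) (J : Matrix (Fin N) (Fin N) ℚ_[ℓ]) :
    Prop :=
  ∀ (φ : MultilinearMap ℚ_[ℓ] (fun _ : Fin 4 => Fin N → ℚ_[ℓ]) ℚ_[ℓ]) (U : Subgroup Γ),
    IsOpen (U : Set Γ) →
    (∀ σ ∈ U, ∀ c : ℚ_[ℓ], (ρ σ)ᵀ * J * ρ σ = c • J →
      ∀ v, φ (fun j => ρ σ *ᵥ v j) = c ^ 2 * φ v) →
    ∃ a b d : ℚ_[ℓ], ∀ v, φ v = a * ((v 0 ⬝ᵥ J *ᵥ v 1) * (v 2 ⬝ᵥ J *ᵥ v 3)) +
      b * ((v 0 ⬝ᵥ J *ᵥ v 2) * (v 1 ⬝ᵥ J *ᵥ v 3)) +
      d * ((v 0 ⬝ᵥ J *ᵥ v 3) * (v 1 ⬝ᵥ J *ᵥ v 2))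

/-- (S): the representation on the endomorphisms of `ℚ_ℓ ^ N` is semisimple: every stable subspace has
a stable complement -/
def IsSemisimpleOnSquare {Γ : Type} [Group Γ] {N : ℕ} (ℓ : ℕ) [Fact ℓ.Prime]
    (ρ : Γ →* Matrix (Fin N) (Fin N) ℚ_[ℓ]) : Prop :=
  ∀ W : Submodule ℚ_[ℓ] (Matrix (Fin N) (Fin N) ℚ_[ℓ]),
    (∀ σ, ∀ A ∈ W, ρ σ * A * ρ σ⁻¹ ∈ W) →
    ∃ W' : Submodule ℚ_[ℓ] (Matrix (Fin N) (Fin N) ℚ_[ℓ]), IsCompl W W' ∧
      ∀ σ, ∀ A ∈ W', ρ σ * A * ρ σ⁻¹ ∈ W'

/-- the place `v` is supersingular: for some `n > 0` all roots `x` of `P v` satisfy `x^(2n) = q^n` -/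
def IsSupersingular {K : Type} [Field K] [NumberField K]
    (P : HeightOneSpectrum (𝓞 K) → ℚ[X]) (q : HeightOneSpectrum (𝓞 K) → ℚ)
    (v : HeightOneSpectrum (𝓞 K)) : Prop :=
  ∃ n : ℕ, 0 < n ∧ ∀ x : ℂ, aeval x (P v) = 0 → x ^ (2 * n) = (q v : ℂ) ^ n

/-- the representation is semisimple: every stable subspace has a stable complement -/
def IsSemisimple {Γ : Type} [Group Γ] {N : ℕ} (ℓ : ℕ) [Fact ℓ.Prime]
    (ρ : Γ →* Matrix (Fin N) (Fin N) ℚ_[ℓ]) : Prop :=
  ∀ W : Submodule ℚ_[ℓ] (Fin N → ℚ_[ℓ]), (∀ σ, ∀ w ∈ W, ρ σ *ᵥ w ∈ W) →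
    ∃ W' : Submodule ℚ_[ℓ] (Fin N → ℚ_[ℓ]), IsCompl W W' ∧ ∀ σ, ∀ w ∈ W', ρ σ *ᵥ w ∈ W'

/-- all endomorphisms of `ℚ_ℓ ^ N` which commute with an open subgroup (the Tate classes in the
endomorphisms, a part of the cohomology of `X × X`, over finite extensions) are scalars -/
def HasScalarEndomorphisms {Γ : Type} [Group Γ] [TopologicalSpace Γ] {N : ℕ} (ℓ : ℕ)
    [Fact ℓ.Prime] (ρ : Γ →* Matrix (Fin N) (Fin N) ℚ_[ℓ]) : Prop :=
  ∀ (A : Matrix (Fin N) (Fin N) ℚ_[ℓ]) (U : Subgroup Γ), IsOpen (U : Set Γ) →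
    (∀ σ ∈ U, A * ρ σ = ρ σ * A) → ∃ c : ℚ_[ℓ], A = c • (1 : Matrix (Fin N) (Fin N) ℚ_[ℓ])

/-- the image of `G` (under `ρ ∘ s`) contains a neighbourhood of the identity in the symplectic group
of `J` -/
def ImageIsOpen {G Γ : Type} [Group G] [Group Γ] (s : G →* Γ) {N : ℕ} (ℓ : ℕ) [Fact ℓ.Prime]
    (ρ : Γ →* Matrix (Fin N) (Fin N) ℚ_[ℓ]) (J : Matrix (Fin N) (Fin N) ℚ_[ℓ]) : Prop :=
  ∃ ε : ℝ, 0 < ε ∧ ∀ g : Matrix (Fin N) (Fin N) ℚ_[ℓ], gᵀ * J * g = J →
    (∀ i j, ‖(g - 1) i j‖ < ε) → ∃ σ, ρ (s σ) = g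

/-- some nonzero complex root of `Q` has no positive power in the multiplicative group generated by
the nonzero complex roots of `R` and by the number `c` (if it is not zero) -/
def HasIndependentRoot (Q R : ℚ[X]) (c : ℚ) : Prop :=
  ∃ x : ℂˣ, aeval (x : ℂ) Q = 0 ∧ ∀ m : ℕ, 0 < m →
    x ^ m ∉ Subgroup.closure {y : ℂˣ | aeval (y : ℂ) R = 0 ∨ (y : ℂ) = (c : ℂ)}

/-- The representation `W` of the open subgroup `U₀` is independent of the system: for some place `v ∉ S`
prime to `ℓ`, a Frobenius element `σ` at `v` and some `f > 0` with `s(σ) ^ (-f) ∈ U₀`, the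
characteristic polynomial of `W(s(σ) ^ (-f))` divides a polynomial `R` with rational coefficients such that
some root of `P v` has no positive power in the group generated by the roots of `R` and `q v` -/
def IsIndependent {K : Type} [Field K] [NumberField K] {Γ : Type} [Group Γ]
    (s : AbsoluteGaloisGroup K →* Γ) (ℓ : ℕ) [Fact ℓ.Prime]
    (S : Set (HeightOneSpectrum (𝓞 K))) (P : HeightOneSpectrum (𝓞 K) → ℚ[X])
    (q : HeightOneSpectrum (𝓞 K) → ℚ) (U₀ : Subgroup Γ) {L : ℕ}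
    (W : U₀ →* Matrix (Fin L) (Fin L) ℚ_[ℓ]) : Prop :=
  ∃ (v : HeightOneSpectrum (𝓞 K)) (σ : AbsoluteGaloisGroup K) (f : ℕ) (h : s σ⁻¹ ^ f ∈ U₀) (R : ℚ[X]),
    v ∉ S ∧ (ℓ : 𝓞 K) ∉ v.asIdeal ∧ IsFrobenius v σ ∧ 0 < f ∧
      (W ⟨s σ⁻¹ ^ f, h⟩).charpoly ∣ R.map (algebraMap ℚ ℚ_[ℓ]) ∧ HasIndependentRoot (P v) R (q v)

/-- For every open subgroup `U₀` of `Γ` and every independent representation `W` of `U₀`,
every multilinear map with `k` variables from `ℚ_ℓ ^ N` to `W` which is equivariant under an open subgroup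
`U` of `U₀` is a linear combination of the maps `v ↦ (∏ J(v_j, v_{π j})) w` (one factor for every pair
`{j, π j}`), where `π` is a perfect matching of the variables and `w ∈ W` is a vector on which all `σ ∈ U`
act as multiplication by `c(σ) ^ (k / 2)`, `c(σ)` the multiplier -/
def TateClassesOnProducts {K : Type} [Field K] [NumberField K] {Γ : Type} [Group Γ]
    [TopologicalSpace Γ] (s : AbsoluteGaloisGroup K →* Γ) {N : ℕ} (ℓ : ℕ) [Fact ℓ.Prime]
    (ρ : Γ →* Matrix (Fin N) (Fin N) ℚ_[ℓ]) (J : Matrix (Fin N) (Fin N) ℚ_[ℓ])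
    (S : Set (HeightOneSpectrum (𝓞 K))) (P : HeightOneSpectrum (𝓞 K) → ℚ[X])
    (q : HeightOneSpectrum (𝓞 K) → ℚ) : Prop :=
  ∀ (U₀ : Subgroup Γ), IsOpen (U₀ : Set Γ) →
    ∀ (L : ℕ) (W : U₀ →* Matrix (Fin L) (Fin L) ℚ_[ℓ]), IsIndependent s ℓ S P q U₀ W →
    ∀ (k : ℕ) (φ : MultilinearMap ℚ_[ℓ] (fun _ : Fin k => Fin N → ℚ_[ℓ]) (Fin L → ℚ_[ℓ]))
      (U : Subgroup U₀), IsOpen (U : Set U₀) →
    (∀ σ ∈ U, ∀ v, φ (fun j => ρ σ *ᵥ v j) = W σ *ᵥ φ v) →
    (fun v => φ v) ∈ Submodule.span ℚ_[ℓ] {ψ : (Fin k → Fin N → ℚ_[ℓ]) → (Fin L → ℚ_[ℓ]) |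
      ∃ (π : Equiv.Perm (Fin k)) (w : Fin L → ℚ_[ℓ]), (∀ j, π (π j) = j) ∧ (∀ j, π j ≠ j) ∧
        (∀ σ ∈ U, ∀ c : ℚ_[ℓ], (ρ σ)ᵀ * J * ρ σ = c • J → W σ *ᵥ w = c ^ (k / 2) • w) ∧
        ∀ v, ψ v = (∏ j with j < π j, (v j ⬝ᵥ J *ᵥ v (π j))) • w}

/-- the set `A` of prime numbers has natural density zero -/
def HasDensityZero (A : Set ℕ) : Prop :=
  Tendsto (fun n : ℕ => (Nat.card {ℓ : ℕ // ℓ ≤ n ∧ ℓ ∈ A} : ℝ) / (Nat.primeCounting n : ℝ))
    atTop (𝓝 0)

/-- **Tate classes on `X^4` at one prime number, and Tate classes on `X^k × Z` at 100 percent of the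
prime numbers and at every prime number at which the Tate classes on `X^2` are as expected.** -/
theorem result (K : Type) [Field K] [NumberField K] (Γ : Type) [Group Γ] [TopologicalSpace Γ]
    [IsTopologicalGroup Γ] [CompactSpace Γ] (s : AbsoluteGaloisGroup K →* Γ) (hs : Continuous s)
    (N : ℕ) (hN : 0 < N) (S : Set (HeightOneSpectrum (𝓞 K))) (hS : S.Finite)
    (P : HeightOneSpectrum (𝓞 K) → ℚ[X]) (q : HeightOneSpectrum (𝓞 K) → ℚ)
    (ρ : ∀ (ℓ : ℕ) [Fact ℓ.Prime], Γ →* Matrix (Fin N) (Fin N) ℚ_[ℓ])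
    (J : ∀ (ℓ : ℕ) [Fact ℓ.Prime], Matrix (Fin N) (Fin N) ℚ_[ℓ])
    (hρ : ∀ (ℓ : ℕ) [Fact ℓ.Prime], IsSymplecticSystem s N ℓ (ρ ℓ) (J ℓ) S P q)
    -- the prime number `ℓ₀`
    (ℓ₀ : ℕ) [Fact ℓ₀.Prime] (h2 : ℓ₀ ≠ 2)
    (hT : TateClassesOnFourthPower ℓ₀ (ρ ℓ₀) (J ℓ₀)) (hss : IsSemisimpleOnSquare ℓ₀ (ρ ℓ₀))
    (U₁ : Subgroup Γ) (hU₁ : IsOpen (U₁ : Set Γ)) (hsU : ∀ γ ∈ U₁, ∃ σ, ρ ℓ₀ (s σ) = ρ ℓ₀ γ)
    (v₀ : HeightOneSpectrum (𝓞 K)) (hv₀ : v₀ ∉ S) (hv₀ℓ : (ℓ₀ : 𝓞 K) ∉ v₀.asIdeal)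
    (hns : ¬ IsSupersingular P q v₀) :
    HasDensityZero {ℓ | ∃ _ : Fact ℓ.Prime, ¬ (ImageIsOpen s ℓ (ρ ℓ) (J ℓ) ∧
      TateClassesOnProducts s ℓ (ρ ℓ) (J ℓ) S P q)} ∧
    ∀ (ℓ : ℕ) [Fact ℓ.Prime], IsSemisimple ℓ (ρ ℓ) → HasScalarEndomorphisms ℓ (ρ ℓ) →
      ImageIsOpen (MonoidHom.id Γ) ℓ (ρ ℓ) (J ℓ) ∧
      TateClassesOnProducts s ℓ (ρ ℓ) (J ℓ) S P q := by
  have hsys : ∀ (ℓ : ℕ) [Fact ℓ.Prime], Y142.ZS.SpSys K N ℓ ((ρ ℓ).comp s) (J ℓ) S P q := fun ℓ _ =>
    ⟨(hρ ℓ).1.comp hs, (hρ ℓ).2.1, (hρ ℓ).2.2.1, fun g => (hρ ℓ).2.2.2.1 (s g),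
      fun v hv hvℓ σ hσ => (hρ ℓ).2.2.2.2 v hv hvℓ σ hσ⟩
  have hfull : Y142.ZS.FullSp ℓ₀ ((ρ ℓ₀).comp s) (J ℓ₀) := by
    obtain ⟨σ, hσ⟩ := Pool.Agent.W401.Frob.exists_frob v₀
    have hN2 : 2 ≤ N := by
      obtain ⟨k, hk⟩ := R932.OP.even_of_alt (hρ ℓ₀).2.1 (hρ ℓ₀).2.2.1
      omega
    have h1 : ∀ X, Y142.ZS.SpLie (J ℓ₀) X → Y142.ZO.IsTangent ℓ₀ (ρ ℓ₀) X := by
      refine R932.OP.full_of_tate4 Y708.ZO.t Y497.ZO.log Y497.ZO.pow (hρ ℓ₀).1 hN2 (Or.inr rfl)
        (by rw [neg_one_smul]; exact (hρ ℓ₀).2.1) (hρ ℓ₀).2.2.1 (hρ ℓ₀).2.2.2.1 ?_ hss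
        (σ₀ := s σ⁻¹) ?_
      · intro φ U hU hφ
        obtain ⟨a, b, d, h⟩ := hT φ U hU hφ
        exact R932.OP.three_mem (J ℓ₀) h
      · obtain ⟨h3, h4⟩ := (hρ ℓ₀).2.2.2.2 v₀ hv₀ hv₀ℓ σ hσ
        intro n c hn
        refine R932.OP.nonscalar hN (hρ ℓ₀).2.2.1 h3 h4 ?_ n c hn
        intro n hn
        by_contra hno
        apply hns
        refine ⟨n, hn, fun x hx => ?_⟩
        by_contra hx2
        exact hno ⟨x, hx, hx2⟩
    intro X hX
    exact R932.OP.tangent_comp (hρ ℓ₀).1 hU₁ hsU (h1 X hX)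
  have hprod : ∀ (ℓ : ℕ) [Fact ℓ.Prime], Y142.ZS.FullSp ℓ (ρ ℓ) (J ℓ) →
      TateClassesOnProducts s ℓ (ρ ℓ) (J ℓ) S P q := by
    intro ℓ _ hgood U₀ hU₀ L W ⟨v, σ, f, hf, R, hv, hvℓ, hσ, hf0, hR, x, hx, hxm⟩ k φ U hU hφ
    exact R932.prod_general (hρ ℓ).1 (Or.inr (hρ ℓ).2.1) (hρ ℓ).2.2.1 hgood (hρ ℓ).2.2.2.1 hU₀ hf
      hf0 ((hρ ℓ).2.2.2.2 v hv hvℓ σ hσ).1 ((hρ ℓ).2.2.2.2 v hv hvℓ σ hσ).2 hR hx hxm hU
      (Or.inr (hρ ℓ).2.1) hφ
  constructor
  · refine Y142.ZI.DensityZero.mono (R932.OP.sym_one hN hS (fun ℓ _ => (ρ ℓ).comp s) J hsys ℓ₀ h2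
      hfull) ?_
    rintro ℓ ⟨hp, hno⟩
    refine ⟨hp, fun hgood => hno ⟨?_, ?_⟩⟩
    · exact Y664.ZS.t ℓ N _ ((ρ ℓ).comp s) (hsys ℓ).1 (J ℓ) (hsys ℓ).2.1 (hsys ℓ).2.2.1
        (hsys ℓ).2.2.2.1 hgood
    · refine hprod ℓ fun X hX => ?_
      obtain ⟨τ, hτ⟩ := hgood X hX
      exact ⟨fun n => s (τ n), hτ⟩
  · intro ℓ hℓ hs1 hs2
    have hgood : Y142.ZS.FullSp ℓ (ρ ℓ) (J ℓ) := R932.EV.sp_every hN hS s ρ J
      (fun ℓ _ => (hρ ℓ).1) (fun ℓ _ => (hρ ℓ).2.2.2.1) hsys ℓ₀ h2 hfull ℓ hs1 hs2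
    refine ⟨?_, hprod ℓ hgood⟩
    exact Y664.ZS.t ℓ N Γ (ρ ℓ) (hρ ℓ).1 (J ℓ) (hρ ℓ).2.1 (hρ ℓ).2.2.1 (hρ ℓ).2.2.2.1 hgood

end Pool.Agent.Results.MP_938ce2_ag.FourthPowerAtOnePrime
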