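import Pool.Agent.R929.NT.DMain

/-!
# Determinant classes are the only obstruction to the Tate conjecture for products with powers of
varieties with nodal reduction

Let `W` be a Weil cohomology theory on a class of smooth proper varieties over an algebraically
closed field `k` (the example: the étale cohomology with coefficients in `ℚ_ℓ` or a finite extension;
`k` the algebraic closure of a number field `F₀`, or of any finitely generated field), and `Γ` a
group with the formal properties of the Galois group of `F₀`; `χ` is its character on the Tate
twists.

Let `X_i` be varieties over `F₀`, of even or odd dimensions, for which numerical and homological
equivalence coincide, whose transcendental cohomology `T_i` (the orthogonal complement of all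
algebraic classes) is in the middle degree and irreducible under all subgroups of finite index. For
every `i` let there be one element `g_i` of `Γ` which acts on the cohomology of `X_i` by a
Picard-Lefschetz formula with a transcendental vanishing cycle, and trivially on the cohomology of
`Z`, on the cohomology of the `X_j` with `j ≠ i` and on the Tate twists. (Example: an element of the
inertia group at a place `v_i` of `F₀` at which `X_i` has an ordinary double point and `Z` and the
other `X_j` have good reduction.) If some `X_i` has even dimension let the coefficient field contain
only finitely many numbers `ζ + ζ⁻¹`, `ζ` a root of unity (this is true for finite extensions
of `ℚ_ℓ`). Of the variety `Z` only `H(Z) ≠ 0` and the formal properties of the Galois action are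
assumed.

Let `Y = X_1^(n_1) × ... × X_r^(n_r) × Z` with **arbitrary exponents**, and let `L` be the set
of the indices `i` such that `X_i` has even dimension and `n_i ≥ dim T_i`.

**Theorem.** The Tate conjecture for `Y` (all codimensions, all finite extensions of `F₀`) is
equivalent to the Tate conjecture for `Z` together with the following statement for each `i ∈ L`:
the determinant `det T_i`, a line in the cohomology of `X_i^(dim T_i)`, is spanned by a combination of classes of
algebraic cycles.

So the determinants `det T_i ⊂ H(X_i^(dim T_i))`, on which the Galois group acts by a power of `χ` and a
character of order at most two, are the only obstruction, at most one class for each factor: one class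
on `X_i^(dim T_i)` decides about the Tate conjecture for all powers of `X_i` and for all their products with `Z`.
The discriminant characters of the `X_i` may be arbitrarily dependent, and no condition on the
exponents is necessary.

The proof: the operators on `T_i` which annihilate all the multilinear maps from `T_i` to the
cohomology of the other factors which are equivariant for a subgroup of finite index form a
Lie algebra; it contains the logarithm of `g_i` or, for even dimension, the operators of rank two
given by two conjugates of the reflection `g_i`, so it is the full symplectic or orthogonal Lie
algebra. By the first fundamental theorem for the special orthogonal group, with values in a module,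
the Tate classes are sums of external products of classes on `Z` with products of the classes of
partial diagonals and determinants; with a basis of the latter, the coefficients are Tate classes on
`Z`. Conversely the class `det T_i` is a Tate class over a quadratic extension, and one goes down from
`Y` to `X_i^(dim T_i)` by a push-forward, with the class of a point, which is algebraic by the Tate
conjecture for the top degree, and by a partial diagonal.
-/

universe u

namespace Pool.Agent.Results.MP_938ce2_ag.NodalDeterminants

open Pool.Agent.H914 Pool.Agent.H281R3.HT Pool.Agent.TH125.Gal Pool.Agent.Y127
  Pool.Agent.R929.NT

/-- **Determinant classes are the only obstruction to the Tate conjecture for products with powers of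
nodal varieties.** -/
theorem result {k : Type u} [Field k] {𝒱 : VarClass k} {ops : CycleOps 𝒱}
    (W : WeilCohomology.{u, 0} ops) {Γ : Type} [Group Γ] (χ : Γ →* W.Kˣ)
    {ι : Type} (X : ι → GVar W Γ) (Z : GVar W Γ) (g : ι → Γ) (h : PLFamily χ X Z g)
    (hZ : GaloisType χ Z) (h1 : (1 : W.H Z.X) ≠ 0) (S L : Set ι) (Y : GVar W Γ)
    (hY : DTower X Z S L Y) :
    TateConjecture χ Y ↔ TateConjecture χ Z ∧ ∀ i ∈ L, DetAlg W (X i).X :=
  tate_det_iff h hZ h1 hY

end Pool.Agent.Results.MP_938ce2_ag.NodalDeterminants
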