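import Pool.Agent.R929.NT.Main

/-!
# The Tate conjecture over a given field for products with powers of varieties with nodal reduction

Let `W` be a Weil cohomology theory on a class of smooth proper varieties over an algebraically
closed field `k` (the example: the étale cohomology with coefficients in `ℚ_ℓ` or a finite extension;
`k` the algebraic closure of a number field `F₀`, or of any finitely generated field), and `Γ` a
group with the formal properties of the Galois group of `F₀`; `χ` is its character on the Tate
twists.

Let `X_i` be varieties over `F₀`, of even or odd dimensions, for which numerical and homological
equivalence coincide, whose transcendental cohomology `T_i` (the orthogonal complement of all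
algebraic classes) is in the middle degree and irreducible under all subgroups of finite index. For
every `i` let there be one element `g_i` of `Γ` which acts on the cohomology of `X_i` by a
Picard-Lefschetz formula with a transcendental vanishing cycle, and trivially on the cohomology of
`Z`, on the cohomology of the `X_j` with `j ≠ i` and on the Tate twists. (Example: an element of the
inertia group at a place `v_i` of `F₀` at which `X_i` has an ordinary double point and `Z` and the
other `X_j` have good reduction.) If some `X_i` has even dimension let the coefficient field contain
only finitely many numbers `ζ + ζ⁻¹`, `ζ` a root of unity (this is true for finite extensions
of `ℚ_ℓ`). Nothing else is assumed on the variety `Z`.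

Let `Y = X_1^(n_1) × ... × X_r^(n_r) × Z` with **arbitrary exponents**, and let `L` be the set
of the indices `i` such that `X_i` has even dimension and `n_i ≥ dim T_i` (or any larger set).
For `i ∈ L` let `d_i` be the discriminant character of `X_i`, the determinant of `Γ` on `T_i(dim X_i / 2)`,
with the values `± 1`.

**Theorem.** The following statements are equivalent.
(a) The Tate conjecture for `Z`, over all finite extensions of `F₀`.
(b) For all finite extensions `F'` of `F₀` such that the discriminant characters `d_i`, `i ∈ L`, are
independent (no product of some of them is trivial) over some finite extension `F''` of `F'`
over which all algebraic classes on the `X_i` and on `Z` are defined: every Tate class on `Y` which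
is defined over `F'` is a combination of classes of algebraic cycles which are defined over `F'`.

So if `n_i < dim T_i` for all even-dimensional `X_i`, the Tate conjecture for `Y` over all finite
extensions is equivalent to the Tate conjecture for `Z`; and for arbitrary exponents it is known over
all fields with independent discriminants as soon as it is known for `Z`. These fields are
abundant: for example all those which are unramified over a place `v_i` as above for each `i ∈ L`
(and some others: the reflection `g_i` has discriminant `-1` for `X_i` and `1` for the others; the
proof of (b) → (a) uses this). Over fields over which the discriminant `d_i` is trivial,
`X_i^(dim T_i)` has the determinant of `T_i` as an additional Tate class which is not known to be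
algebraic, so that the condition is natural.

The proof: the operators on `T_i` which annihilate all the multilinear maps from `T_i` to the
cohomology of the other factors which are equivariant for a subgroup of finite index form a
Lie algebra; it contains the logarithm of `g_i` or, for even dimension, the operators of rank two
given by two conjugates of the reflection `g_i`, so it is the full symplectic or orthogonal Lie
algebra. In the orthogonal case one separates the invariants of the orthogonal group from the
invariants which change the sign under reflections; the coefficients of the latter are
classes on the remaining product on which the Galois group acts by a product of discriminants,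
and by induction these twisted classes vanish.
-/

universe u

namespace Pool.Agent.Results.MP_938ce2_ag.NodalTowers

open Pool.Agent.H914 Pool.Agent.H281R3.HT Pool.Agent.TH125.Gal Pool.Agent.Y127
  Pool.Agent.R929.NT

/-- **The Tate conjecture over a given field for products with powers of nodal varieties.** -/
theorem result {k : Type u} [Field k] {𝒱 : VarClass k} {ops : CycleOps 𝒱}
    (W : WeilCohomology.{u, 0} ops) {Γ : Type} [Group Γ] (χ : Γ →* W.Kˣ)
    {ι : Type} (X : ι → GVar W Γ) (Z : GVar W Γ) (g : ι → Γ) (h : PLFamily χ X Z g)
    (hZ : GaloisType χ Z) (S L : Set ι) (Y : GVar W Γ) (hY : LTower X Z S L Y)
    (hG : GaloisType χ Y) :
    (∀ Δ' : Subgroup Γ, Δ'.FiniteIndex → IndepDiscs χ X Z S L Δ' → TateOver χ Δ' Y) ↔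
      TateConjecture χ Z :=
  tate_over_iff h hZ hY hG

end Pool.Agent.Results.MP_938ce2_ag.NodalTowers
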