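import Mathlib
import Pool.Agent.R932.ProdD

/-!
# Tate classes on products of powers of `X` with arbitrary varieties, `X` of odd dimension

Let `X` be a smooth projective variety over a number field `K` and let `V_ℓ`, for all prime numbers `ℓ`, be
a direct factor of the cohomology of `X` in an odd degree `a` which is cut out by correspondences (for
example the cohomology in the middle degree, if `X` is a complete intersection of odd
dimension, or `H^1` of a curve), with the alternating form `J_ℓ` given by a polarization. At the places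
`v ∉ S` the geometric Frobenius element has a characteristic polynomial `P_v` with rational coefficients
and the multiplier `q_v` (`= N(v)^a`), independent of `ℓ` (Deligne).

Suppose that
(1) for some place `w₀ ∉ S` the roots of `P_{w₀}` are simple and `x / y = z / u` for roots `x ≠ y`, `z`, `u`
only in the trivial cases `(z, u) = (x, y)` and `(z, u) = (q / y, q / x)`;
(2) `u_0, ..., u_m ∉ S` are places such that the roots of `P_{u_i}` are simple and no quotient of different
roots is a root of unity, and for every `g ∈ Gal(ℚ)` and every `d` with `0 < d < N` (`N` is the rank of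
`V_ℓ`) there are a place `v` of this kind and an automorphism `w` which agrees with `g` on the
intersection of the splitting fields of the `P_{u_i}` such that no set of `d` roots of `P_v` is stable
under `w`, and also a place `v` and an automorphism `w` of this kind such that `w` fixes a root of `P_v`.

These are conditions on finitely many Frobenius polynomials of `X`. They can be satisfied if the Galois
groups of the `P_v` are (for most `v`) the full Weyl group of type `C`.

**Theorem.** There is a set of prime numbers of natural density zero, which depends only on `X`, with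
the following property. Let `ℓ` be a prime number outside this set, let `Z` be any variety over
the algebraic closure of `K` (it is defined over a finite extension `K'`), and let `W` be a cohomology group of
`Z` with coefficients `ℚ_ℓ` and any Tate twist (or any representation of `Gal(K')` on a
`ℚ_ℓ`-vector space: no continuity, semisimplicity or purity is needed). Suppose that for
one place `v ∉ S` prime to `ℓ`, a Frobenius element `σ` at `v` and a power `σ^f ∈ Gal(K')` the
eigenvalues of `σ^{-f}` on `W` are roots of a polynomial `R` with rational coefficients, and that some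
root of `P_v` has no positive power in the multiplicative group generated by the roots of `R` and `q_v`.
Then for every `k` every multilinear map from `V_ℓ^k` to `W` which is equivariant under an
open subgroup `U` is a linear combination of the maps

`(v_1, ..., v_k) ↦ (∏ J_ℓ(v_i, v_j)) w`,

where the product is over the pairs of a perfect matching of `{1, ..., k}` and `w ∈ W` is a vector on which
`U` acts through the power `k/2` of the multiplier (after the twist: a Tate class on `Z`).

By Poincare duality such multilinear maps are the Tate classes in `V_ℓ^{⊗ k} ⊗ W`, a part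
of the cohomology of `X^k × Z`. So all these Tate classes on `X^k × Z` are sums of products of
the polarization classes on `X × X` (algebraic) and Tate classes on `Z`, and they are algebraic if
the Tate classes on `Z` of the same kind are algebraic. If the other cohomology of `X` is generated
by algebraic classes (complete intersections), then the Tate conjecture for `Z` implies the Tate
conjecture for `X^k × Z` for all `k`, for 100 percent of the prime numbers `ℓ`. For `Z` a point one gets the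
Tate conjecture for the powers of `X` (this is known from the starting files).

Idea of the proof. Under (1) and (2) the Lie algebra of the image of the Galois group on `V_ℓ` contains
`sp(V_ℓ)` for 100 percent of the `ℓ` (starting files). The matrices `A` which annihilate the multilinear
map `φ` (`∑ φ(v_1, ..., A v_j, ..., v_k) = 0`) form a subspace which is stable under `[X, ]` for all
tangent vectors `X` of the image, so for all `X ∈ sp(V_ℓ)`. The independent root gives an additive
function `θ` on the multiplicative group of the algebraic closure of `ℚ_ℓ` which is zero on the eigenvalues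
on `W` and on `q_v` but not on the root. The operator which is `θ(x)` on the generalized eigenspace for
`x` annihilates `φ` (generalized eigenvectors are mapped to generalized eigenvectors) and it is a nonzero
element of `sp(V_ℓ)` over the algebraic closure; its coordinates over `ℚ_ℓ` have the same property. So
`φ` is annihilated by a nonzero ideal, that is by `sp(V_ℓ)`, and one uses the first fundamental
theorem for each coordinate of `φ`; the coefficients are then Tate vectors.
-/

set_option autoImplicit false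

namespace Pool.Agent.Results.MP_938ce2_ag.PowersTimesAnything

open Matrix Polynomial Filter Topology NumberField IsDedekindDomain

/-- the absolute Galois group of `K`, with its profinite (Krull) topology -/
abbrev AbsoluteGaloisGroup (K : Type) [Field K] : Type := Gal(AlgebraicClosure K/K)

/-- `σ` is an (arithmetic) Frobenius element at the prime `v` of the number field `K`: for some prime
`Q` of the algebraic closure above `v` it acts on the residue field as `x ↦ x ^ N(v)` -/
def IsFrobenius {K : Type} [Field K] [NumberField K] (v : HeightOneSpectrum (𝓞 K))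
    (σ : AbsoluteGaloisGroup K) : Prop :=
  ∃ Q : Ideal (𝓞 (AlgebraicClosure K)), Q.IsMaximal ∧
    Q.comap (algebraMap (𝓞 K) (𝓞 (AlgebraicClosure K))) = v.asIdeal ∧
    ∀ x : 𝓞 (AlgebraicClosure K), σ • x - x ^ Ideal.absNorm v.asIdeal ∈ Q

/-- `ρ` is a continuous representation of the Galois group of `K` on `ℚ_ℓ ^ N` by similitudes of the
nondegenerate alternating form with the matrix `J`; for all `v ∉ S` which are prime to `ℓ` the
characteristic polynomial of the geometric Frobenius elements `σ⁻¹` (`σ` arithmetic) at `v` is `P v`, and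
their multiplier is `q v` -/
def IsSymplecticSystem (K : Type) [Field K] [NumberField K] (N ℓ : ℕ) [Fact ℓ.Prime]
    (ρ : AbsoluteGaloisGroup K →* Matrix (Fin N) (Fin N) ℚ_[ℓ])
    (J : Matrix (Fin N) (Fin N) ℚ_[ℓ])
    (S : Set (HeightOneSpectrum (𝓞 K))) (P : HeightOneSpectrum (𝓞 K) → ℚ[X])
    (q : HeightOneSpectrum (𝓞 K) → ℚ) : Prop :=
  Continuous ρ ∧ Jᵀ = -J ∧ J.det ≠ 0 ∧
    (∀ γ, ∃ c : ℚ_[ℓ], (ρ γ)ᵀ * J * ρ γ = c • J) ∧
    ∀ v ∉ S, (ℓ : 𝓞 K) ∉ v.asIdeal → ∀ σ : AbsoluteGaloisGroup K, IsFrobenius v σ →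
      (ρ σ⁻¹).charpoly = (P v).map (algebraMap ℚ ℚ_[ℓ]) ∧
        (ρ σ⁻¹)ᵀ * J * ρ σ⁻¹ = (q v : ℚ_[ℓ]) • J

/-- the roots of `P v` are simple, and different roots have different `n`-th powers for all `n > 0` -/
def IsRegularPlace {K : Type} [Field K] [NumberField K]
    (S : Set (HeightOneSpectrum (𝓞 K))) (P : HeightOneSpectrum (𝓞 K) → ℚ[X])
    (v : HeightOneSpectrum (𝓞 K)) : Prop :=
  v ∉ S ∧ (P v).Separable ∧ ∀ n : ℕ, 0 < n → ∀ x y : ℂ,
    aeval x (P v) = 0 → aeval y (P v) = 0 → x ^ n = y ^ n → x = y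

/-- the roots of `P v` are simple, and the quotients `x / y` of different roots are different, except
for `x / y = (q / y) / (q / x)`, `q` the multiplier -/
def IsGenericPlace {K : Type} [Field K] [NumberField K]
    (S : Set (HeightOneSpectrum (𝓞 K))) (P : HeightOneSpectrum (𝓞 K) → ℚ[X])
    (q : HeightOneSpectrum (𝓞 K) → ℚ) (v : HeightOneSpectrum (𝓞 K)) : Prop :=
  v ∉ S ∧ (P v).Separable ∧ ∀ x y z u : ℂ, aeval x (P v) = 0 → aeval y (P v) = 0 →
    aeval z (P v) = 0 → aeval u (P v) = 0 → x ≠ y → x * u = z * y →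
    (z = x ∧ u = y) ∨ (z * y = (q v : ℂ) ∧ u * x = (q v : ℂ))

/-- the splitting field of `Q` in the algebraic closure of `ℚ` -/
noncomputable def splittingField (Q : ℚ[X]) : Set (AlgebraicClosure ℚ) :=
  (IntermediateField.adjoin ℚ {x : AlgebraicClosure ℚ | aeval x Q = 0} :
    IntermediateField ℚ (AlgebraicClosure ℚ))

/-- `T` is a set of roots of `Q` which is stable under `w` -/
def IsStableSet (w : AbsoluteGaloisGroup ℚ) (Q : ℚ[X]) (T : Set (AlgebraicClosure ℚ)) : Prop :=
  (∀ x ∈ T, aeval x Q = 0) ∧ ∀ x ∈ T, w x ∈ T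

/-- some nonzero complex root of `Q` has no positive power in the multiplicative group generated by
the nonzero complex roots of `R` and by the number `c` (if it is not zero) -/
def HasIndependentRoot (Q R : ℚ[X]) (c : ℚ) : Prop :=
  ∃ x : ℂˣ, aeval (x : ℂ) Q = 0 ∧ ∀ m : ℕ, 0 < m →
    x ^ m ∉ Subgroup.closure {y : ℂˣ | aeval (y : ℂ) R = 0 ∨ (y : ℂ) = (c : ℂ)}

/-- The representation `W` of the open subgroup `U₀` is independent of the system: for some place `v ∉ S`
prime to `ℓ`, a Frobenius element `σ` at `v` and some `f > 0` with `σ ^ (-f) ∈ U₀`, the characteristic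
polynomial of `W(σ ^ (-f))` divides a polynomial `R` with rational coefficients such that some root of
`P v` has no positive power in the group generated by the roots of `R` and `q v` -/
def IsIndependent {K : Type} [Field K] [NumberField K] (ℓ : ℕ) [Fact ℓ.Prime]
    (S : Set (HeightOneSpectrum (𝓞 K))) (P : HeightOneSpectrum (𝓞 K) → ℚ[X])
    (q : HeightOneSpectrum (𝓞 K) → ℚ) (U₀ : Subgroup (AbsoluteGaloisGroup K)) {L : ℕ}
    (W : U₀ →* Matrix (Fin L) (Fin L) ℚ_[ℓ]) : Prop :=
  ∃ (v : HeightOneSpectrum (𝓞 K)) (σ : AbsoluteGaloisGroup K) (f : ℕ) (h : σ⁻¹ ^ f ∈ U₀) (R : ℚ[X]),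
    v ∉ S ∧ (ℓ : 𝓞 K) ∉ v.asIdeal ∧ IsFrobenius v σ ∧ 0 < f ∧
      (W ⟨σ⁻¹ ^ f, h⟩).charpoly ∣ R.map (algebraMap ℚ ℚ_[ℓ]) ∧ HasIndependentRoot (P v) R (q v)

/-- For every open subgroup `U₀` of the Galois group and every independent representation `W` of `U₀`,
every multilinear map with `k` variables from `ℚ_ℓ ^ N` to `W` which is equivariant under an open subgroup
`U` of `U₀` is a linear combination of the maps `v ↦ (∏ J(v_j, v_{π j})) w` (one factor for every pair
`{j, π j}`), where `π` is a perfect matching of the variables and `w ∈ W` is a vector on which all `σ ∈ U`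
act as multiplication by `c(σ) ^ (k / 2)`, `c(σ)` the multiplier -/
def TateClassesOnProducts {K : Type} [Field K] [NumberField K] {N : ℕ} (ℓ : ℕ) [Fact ℓ.Prime]
    (ρ : AbsoluteGaloisGroup K →* Matrix (Fin N) (Fin N) ℚ_[ℓ])
    (J : Matrix (Fin N) (Fin N) ℚ_[ℓ])
    (S : Set (HeightOneSpectrum (𝓞 K))) (P : HeightOneSpectrum (𝓞 K) → ℚ[X])
    (q : HeightOneSpectrum (𝓞 K) → ℚ) : Prop :=
  ∀ (U₀ : Subgroup (AbsoluteGaloisGroup K)), IsOpen (U₀ : Set (AbsoluteGaloisGroup K)) →
    ∀ (L : ℕ) (W : U₀ →* Matrix (Fin L) (Fin L) ℚ_[ℓ]), IsIndependent ℓ S P q U₀ W →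
    ∀ (k : ℕ) (φ : MultilinearMap ℚ_[ℓ] (fun _ : Fin k => Fin N → ℚ_[ℓ]) (Fin L → ℚ_[ℓ]))
      (U : Subgroup U₀), IsOpen (U : Set U₀) →
    (∀ σ ∈ U, ∀ v, φ (fun j => ρ σ *ᵥ v j) = W σ *ᵥ φ v) →
    (fun v => φ v) ∈ Submodule.span ℚ_[ℓ] {ψ : (Fin k → Fin N → ℚ_[ℓ]) → (Fin L → ℚ_[ℓ]) |
      ∃ (π : Equiv.Perm (Fin k)) (w : Fin L → ℚ_[ℓ]), (∀ j, π (π j) = j) ∧ (∀ j, π j ≠ j) ∧
        (∀ σ ∈ U, ∀ c : ℚ_[ℓ], (ρ σ)ᵀ * J * ρ σ = c • J → W σ *ᵥ w = c ^ (k / 2) • w) ∧
        ∀ v, ψ v = (∏ j with j < π j, (v j ⬝ᵥ J *ᵥ v (π j))) • w}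

/-- the set `A` of prime numbers has natural density zero -/
def HasDensityZero (A : Set ℕ) : Prop :=
  Tendsto (fun n : ℕ => (Nat.card {ℓ : ℕ // ℓ ≤ n ∧ ℓ ∈ A} : ℝ) / (Nat.primeCounting n : ℝ))
    atTop (𝓝 0)

/-- **Tate classes on the products `X^k × Z`, `Z` arbitrary, at 100 percent of the primes `ℓ`.** -/
theorem result (K : Type) [Field K] [NumberField K]
    (N : ℕ) (hN : 0 < N) (S : Set (HeightOneSpectrum (𝓞 K))) (hS : S.Finite)
    (P : HeightOneSpectrum (𝓞 K) → ℚ[X]) (q : HeightOneSpectrum (𝓞 K) → ℚ)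
    (ρ : ∀ (ℓ : ℕ) [Fact ℓ.Prime], AbsoluteGaloisGroup K →* Matrix (Fin N) (Fin N) ℚ_[ℓ])
    (J : ∀ (ℓ : ℕ) [Fact ℓ.Prime], Matrix (Fin N) (Fin N) ℚ_[ℓ])
    (hρ : ∀ (ℓ : ℕ) [Fact ℓ.Prime], IsSymplecticSystem K N ℓ (ρ ℓ) (J ℓ) S P q)
    -- the places
    (w₀ : HeightOneSpectrum (𝓞 K)) (hw₀ : IsGenericPlace S P q w₀)
    (m : ℕ) (u : Fin (m + 1) → HeightOneSpectrum (𝓞 K)) (hu : ∀ i, IsRegularPlace S P (u i))
    (h1 : ∀ (g : AbsoluteGaloisGroup ℚ) (d : ℕ), 0 < d → d < N →
      ∃ (v : HeightOneSpectrum (𝓞 K)) (w : AbsoluteGaloisGroup ℚ), IsRegularPlace S P v ∧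
        (∀ x, (∀ i, x ∈ splittingField (P (u i))) → w x = g x) ∧
        ∀ T, IsStableSet w (P v) T → T.ncard ≠ d)
    (h2 : ∀ g : AbsoluteGaloisGroup ℚ,
      ∃ (v : HeightOneSpectrum (𝓞 K)) (w : AbsoluteGaloisGroup ℚ), IsRegularPlace S P v ∧
        (∀ x, (∀ i, x ∈ splittingField (P (u i))) → w x = g x) ∧
        ∃ x, aeval x (P v) = 0 ∧ w x = x) :
    HasDensityZero {ℓ | ∃ _ : Fact ℓ.Prime, ¬ TateClassesOnProducts ℓ (ρ ℓ) (J ℓ) S P q} := by
  have hcont : Continuous (MonoidHom.id (AbsoluteGaloisGroup K)) := continuous_id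
  have hgs : ∀ (ℓ : ℕ) [Fact ℓ.Prime],
      Y142.SI.GenSys K (MonoidHom.id (AbsoluteGaloisGroup K)) N ℓ (ρ ℓ) S P := fun ℓ _ =>
    ⟨(hρ ℓ).1, fun v hv hvℓ σ hσ => ((hρ ℓ).2.2.2.2 v hv hvℓ σ hσ).1⟩
  have hfs : ∀ (ℓ : ℕ) [Fact ℓ.Prime],
      Y142.SU.FormSys K (MonoidHom.id (AbsoluteGaloisGroup K)) N ℓ (ρ ℓ) (J ℓ) S q := fun ℓ _ =>
    ⟨Or.inr (hρ ℓ).2.1, (hρ ℓ).2.2.1, (hρ ℓ).2.2.2.1,
      fun v hv hvℓ σ hσ => ((hρ ℓ).2.2.2.2 v hv hvℓ σ hσ).2⟩
  have hsys' : ∀ (ℓ : ℕ) [Fact ℓ.Prime], Y142.SS.Sys K N ℓ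
      ((ρ ℓ).comp (MonoidHom.id (AbsoluteGaloisGroup K))) S P := fun ℓ _ =>
    ⟨(hgs ℓ).1.comp hcont, fun v hv hvℓ σ hσ => (hgs ℓ).2 v hv hvℓ σ hσ⟩
  have hnice : ∀ v, IsRegularPlace S P v → Y142.ZS.NiceP S P v := fun v hv =>
    Y142.SS.nice_of_complexA (fun ℓ _ => (ρ ℓ).comp (MonoidHom.id (AbsoluteGaloisGroup K))) hsys'
      hv.1 hv.2.1 hv.2.2
  have hgen : Y142.ZS.GenP S P q w₀ :=
    Y142.SU.gen_of_complexU hw₀.1 (Y142.SS.monic_of_sysA
      (fun ℓ _ => (ρ ℓ).comp (MonoidHom.id (AbsoluteGaloisGroup K))) hsys' hw₀.1).1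
      (Y142.SU.q_ne_zeroU hN (MonoidHom.id (AbsoluteGaloisGroup K)) ρ J hfs hw₀.1) hw₀.2.1 hw₀.2.2
  have hLf : ∀ (i : Fin (m + 1)) (x : AlgebraicClosure ℚ),
      x ∈ Y142.ZI.Lf (P (u i)) → x ∈ splittingField (P (u i)) := by
    intro i x hx
    have h2 : (P (u i)).rootSet (AlgebraicClosure ℚ) =
        {x : AlgebraicClosure ℚ | aeval x (P (u i)) = 0} := by
      ext y
      exact mem_rootSet_of_ne (hu i).2.1.ne_zero
    unfold Y142.ZI.Lf at hx
    rw [h2] at hx
    exact hx
  have hA : ∀ g w : AbsoluteGaloisGroup ℚ,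
      (∀ x, (∀ i, x ∈ splittingField (P (u i))) → w x = g x) →
      w⁻¹ * g ∈ Subgroup.closure (⋃ i, Y142.SS.Fix (P (u i))) := by
    intro g w hw
    refine Y142.SS.field_mem _ (fun i => (hu i).2.1.ne_zero) fun x hx => ?_
    rw [AlgEquiv.mul_apply, ← hw x fun i => hLf i x (hx i), ← AlgEquiv.mul_apply, inv_mul_cancel,
      AlgEquiv.one_apply]
  refine Y142.ZI.DensityZero.mono (R932.density_even hN hS (MonoidHom.id (AbsoluteGaloisGroup K))
    hcont ρ hgs J hfs hgen u (fun i => hnice _ (hu i)) ?_ ?_) ?_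
  · intro g d hd hdN
    obtain ⟨v, w, hv, hw, hT⟩ := h1 g d hd hdN
    exact ⟨v, hnice v hv, w, fun T hT1 hT2 => hT T ⟨hT1, hT2⟩, hA g w hw⟩
  · intro g
    obtain ⟨v, w, hv, hw, hx⟩ := h2 g
    exact ⟨v, hnice v hv, w, hx, hA g w hw⟩
  · rintro ℓ ⟨hp, hno⟩
    refine ⟨hp, fun hgood => hno ?_⟩
    intro U₀ hU₀ L W ⟨v, σ, f, hf, R, hv, hvℓ, hσ, hf0, hR, x, hx, hxm⟩ k φ U hU hφ
    exact R932.prod_general (hρ ℓ).1 (Or.inr (hρ ℓ).2.1) (hρ ℓ).2.2.1 hgood (hρ ℓ).2.2.2.1 hU₀ hf
      hf0 ((hρ ℓ).2.2.2.2 v hv hvℓ σ hσ).1 ((hρ ℓ).2.2.2.2 v hv hvℓ σ hσ).2 hR hx hxm hU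
      (Or.inr (hρ ℓ).2.1) hφ

end Pool.Agent.Results.MP_938ce2_ag.PowersTimesAnything
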